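import Pool.Agent.V1180.Hyp

set_option autoImplicit false

/-! A polynomial hypergroup with Haar weight `h(2) = 15/8 < 2`. -/

open Finset

namespace Pool.Agent.Results.MP_382e70_an.WeightBelowTwo

/-- the polynomials `P_n` (as polynomial functions on `ℝ`): `P_0 = 1`, `P_1 = (x - b_0)/a_0`,
`P_1 P_n = a_n P_{n+1} + b_n P_n + c_n P_{n-1}` for `n ≥ 1` -/
noncomputable def P (a b c : ℕ → ℝ) : ℕ → ℝ → ℝ
  | 0, _ => 1
  | 1, x => (x - b 0) / a 0
  | n + 2, x => (((x - b 0) / a 0 - b (n + 1)) * P a b c (n + 1) x - c (n + 1) * P a b c n x) /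
      a (n + 1)

/-- the conditions on the recurrence coefficients -/
structure Coeffs (a b c : ℕ → ℝ) : Prop where
  a_pos : ∀ n, 0 < a n
  b_nonneg : ∀ n, 0 ≤ b n
  c_zero : c 0 = 0
  c_pos : ∀ n, 1 ≤ n → 0 < c n
  sum_one : ∀ n, a n + b n + c n = 1

/-- nonnegative linearization: `P_m P_n = ∑_{k=|m-n|}^{m+n} g(m,n,k) P_k` with all
`g(m,n,k) ≥ 0` -/
def IsHypergroup (a b c : ℕ → ℝ) : Prop :=
  ∃ g : ℕ → ℕ → ℕ → ℝ, (∀ m n k, 0 ≤ g m n k) ∧ ∀ m n x,
    P a b c m x * P a b c n x = ∑ k ∈ Icc (max m n - min m n) (m + n), g m n k * P a b c k x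

/-- the Haar weights `h(n) = ∏_{1≤k≤n-1} a_k / ∏_{1≤k≤n} c_k` for `n ≥ 1` -/
noncomputable def haar (a c : ℕ → ℝ) (n : ℕ) : ℝ :=
  (∏ k ∈ Icc 1 (n - 1), a k) / ∏ k ∈ Icc 1 n, c k

noncomputable def aa : ℕ → ℝ
  | 0 => 1
  | 1 => 3 / 5
  | 2 => 1 / 5
  | _ + 3 => 1 / 20

noncomputable def bb : ℕ → ℝ
  | 0 => 0
  | 1 => 0
  | 2 => 0
  | _ + 3 => 47 / 50

noncomputable def cc : ℕ → ℝ
  | 0 => 0
  | 1 => 2 / 5
  | 2 => 4 / 5
  | _ + 3 => 1 / 100

theorem coeffs : Coeffs aa bb cc := by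
  refine ⟨fun n => ?_, fun n => ?_, rfl, fun n hn => ?_, fun n => ?_⟩
  · rcases n with _ | _ | _ | n <;> norm_num [aa]
  · rcases n with _ | _ | _ | n <;> norm_num [bb]
  · rcases n with _ | _ | _ | n
    · omega
    all_goals norm_num [cc]
  · rcases n with _ | _ | _ | n
    all_goals norm_num [aa, bb, cc]

theorem rec : Pool.Agent.V1180.Hyp.Rec (P aa bb cc) := by
  have h1 : ∀ x, P aa bb cc 1 x = x := by
    intro x
    simp [P, aa, bb]
  refine ⟨fun x => by simp [P], fun x => ?_, fun x => ?_, fun n x => ?_⟩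
  · rw [h1]
    have : P aa bb cc 2 x = (((x - bb 0) / aa 0 - bb 1) * P aa bb cc 1 x -
        cc 1 * P aa bb cc 0 x) / aa 1 := rfl
    rw [this, h1]
    simp only [aa, bb, cc, P]
    ring
  · have : P aa bb cc 3 x = (((x - bb 0) / aa 0 - bb 2) * P aa bb cc 2 x -
        cc 2 * P aa bb cc 1 x) / aa 2 := rfl
    rw [this, h1]
    simp only [aa, bb, cc]
    ring
  · have : P aa bb cc (n + 4) x = (((x - bb 0) / aa 0 - bb (n + 3)) * P aa bb cc (n + 3) x -
        cc (n + 3) * P aa bb cc (n + 2) x) / aa (n + 3) := rfl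
    rw [this, h1]
    simp only [aa, bb, cc]
    ring

/-- **Answer to Q1: no.**  There is a polynomial hypergroup on `ℕ` whose Haar weight `h(2)` is
`15/8 < 2`. -/
theorem result : ∃ a b c : ℕ → ℝ, Coeffs a b c ∧ IsHypergroup a b c ∧ haar a c 2 = 15 / 8 ∧
    haar a c 2 < 2 := by
  have h2 : haar aa cc 2 = 15 / 8 := by
    have e1 : Icc 1 2 = ({1, 2} : Finset ℕ) := rfl
    have e2 : Icc 1 (2 - 1) = ({1} : Finset ℕ) := rfl
    unfold haar
    rw [e1, e2, prod_singleton, prod_insert (by simp), prod_singleton]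
    norm_num [aa, cc]
  refine ⟨aa, bb, cc, coeffs, ?_, h2, ?_⟩
  · have := fun m n => rec.lin m n
    choose g hg h using this
    exact ⟨g, hg, h⟩
  · rw [h2]
    norm_num

end Pool.Agent.Results.MP_382e70_an.WeightBelowTwo
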